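import Mathlib
import Pool.Agent.Q196.UG.Main

set_option autoImplicit false

/-! MP_840fa9_an: the sum `UC(J, X) + g UC(J, X)` satisfies the difference property (Delta). -/

namespace Pool.Agent.Results.MP_840fa9_an.DifferenceProperty

open MeasureTheory Set

/-- The admissible intervals: closed or open half-lines to the right, and the line. -/
def Admissible (J : Set ℝ) : Prop :=
  (∃ α : ℝ, J = Ici α) ∨ (∃ α : ℝ, J = Ioi α) ∨ J = univ

/-- The function `g(t) = exp (i t^2)`. -/
noncomputable def g (t : ℝ) : ℂ := Complex.exp (Complex.I * (t : ℂ) ^ 2)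

/-- `f` is Bochner integrable on every compact subinterval of `J`. -/
def LocallyBochner {X : Type*} [NormedAddCommGroup X] (J : Set ℝ) (f : ℝ → X) : Prop :=
  ∀ a ∈ J, ∀ b ∈ J, IntegrableOn f (Icc a b)

/-- The restriction of `w` to `J` belongs to `UC(J, X) + g UC(J, X)`. -/
def InSum {X : Type*} [NormedAddCommGroup X] [NormedSpace ℂ X] (J : Set ℝ) (w : ℝ → X) : Prop :=
  ∃ u v : ℝ → X, UniformContinuousOn u J ∧ UniformContinuousOn v J ∧
    ∀ t ∈ J, w t = u t + g t • v t

/-- For every admissible `J` and every complex Banach space `X`: if all differences `Δ_a f`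
(`a > 0`) of the locally Bochner integrable function `f` belong to `UC + g UC`, then
`f - M_h f` belongs to `UC + g UC` for every `h > 0`. -/
theorem result {X : Type*} [NormedAddCommGroup X] [NormedSpace ℂ X] [CompleteSpace X]
    {J : Set ℝ} (hJ : Admissible J) (f : ℝ → X) (hf : LocallyBochner J f)
    (hΔ : ∀ a : ℝ, 0 < a → InSum J fun t => f (t + a) - f t) :
    ∀ h : ℝ, 0 < h → InSum J fun t => f t - h⁻¹ • ∫ s in t..(t + h), f s := by
  have h1 : J.OrdConnected := by
    rcases hJ with ⟨α, rfl⟩ | ⟨α, rfl⟩ | rfl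
    · exact ordConnected_Ici
    · exact ordConnected_Ioi
    · exact ordConnected_univ
  have h2 : ∀ t ∈ J, ∀ s : ℝ, 0 ≤ s → t + s ∈ J := by
    rcases hJ with ⟨α, rfl⟩ | ⟨α, rfl⟩ | rfl
    · intro t ht s hs
      simp only [mem_Ici] at ht ⊢
      linarith
    · intro t ht s hs
      simp only [mem_Ioi] at ht ⊢
      linarith
    · intro t _ s _
      trivial
  intro h hh
  exact Pool.Agent.Q196.UG.main h1 h2 (fun a ha => hΔ a ha) hf hh

end Pool.Agent.Results.MP_840fa9_an.DifferenceProperty
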